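import Pool.Agent.N798.H.Stm2

set_option autoImplicit false

/-! Project HS (helper798), leaf MT: the main term. -/

namespace Pool.Agent.N531.HS

open Finset MeasureTheory Filter Topology
open Pool.Agent.N798.HS

theorem sq_ge {u : ℕ → ℕ} (h : Sq u) : ∀ l, 1 ≤ l → l ≤ u l := by
  intro l hl
  induction l, hl using Nat.le_induction with
  | base => exact h.2.1
  | succ n hn ih =>
    have := h.1 n (n + 1) hn (by omega)
    omega

theorem partA {u : ℕ → ℕ} (h : Sq u) {α : ℝ} (hα : 0 < α) :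
    ∀ᶠ n : ℕ in atTop, ∀ l : ℕ, Nat.sqrt n < l → Real.log n / 3 ≤ Real.log (α * u l) := by
  have h1 := (Real.tendsto_log_atTop.comp (tendsto_natCast_atTop_atTop (R := ℝ))).eventually_ge_atTop
    (6 * |Real.log α|)
  filter_upwards [h1, eventually_ge_atTop 1] with n hn hn1 l hl
  have hn' : 6 * |Real.log α| ≤ Real.log n := hn
  have hl1 : 1 ≤ l := by omega
  have hul := sq_ge h l hl1
  have hlr : (0 : ℝ) < l := by exact_mod_cast hl1
  have hur : (0 : ℝ) < u l := by exact_mod_cast (by omega : 0 < u l)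
  have h2 : n < l * l := Nat.sqrt_lt.mp hl
  have h3 : Real.log n ≤ 2 * Real.log l := by
    have h4 : Real.log n ≤ Real.log ((l : ℝ) * l) := by
      apply Real.log_le_log (by exact_mod_cast hn1)
      exact_mod_cast h2.le
    rw [Real.log_mul hlr.ne' hlr.ne'] at h4
    linarith
  have h5 : Real.log l ≤ Real.log (u l) := Real.log_le_log hlr (by exact_mod_cast hul)
  rw [Real.log_mul hα.ne' hur.ne']
  have h6 := neg_abs_le (Real.log α)
  linarith

theorem partB {u : ℕ → ℕ} (h : Sq u) {α : ℝ} (hα : 0 < α) {ε : ℝ} (hε : 0 < ε) :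
    ∀ᶠ n : ℕ in atTop, ∀ l : ℕ, (n : ℝ) / Real.log n ≤ l → l ≤ n →
      |Real.log n / Real.log (α * u l) - 1| < ε := by
  obtain ⟨C, n0, hC⟩ := h.2.2
  have hlt := Real.tendsto_log_atTop.comp (tendsto_natCast_atTop_atTop (R := ℝ))
  obtain ⟨δ, hδ⟩ : ∃ δ : ℝ, δ = min (ε / 4) (1 / 2) := ⟨_, rfl⟩
  have hδ0 : 0 < δ := by rw [hδ]; positivity
  have hδ1 : δ ≤ ε / 4 := by rw [hδ]; exact min_le_left _ _
  have hδ2 : δ ≤ 1 / 2 := by rw [hδ]; exact min_le_right _ _
  have e1 : ∀ᶠ n : ℕ in atTop, Real.log (Real.log n) ≤ δ / (2 * ((C : ℝ) + 1)) * Real.log n := by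
    have h1 := Real.isLittleO_log_id_atTop.comp_tendsto hlt
    have h2 := h1.bound (show 0 < δ / (2 * ((C : ℝ) + 1)) by positivity)
    filter_upwards [h2, hlt.eventually_ge_atTop 1] with n hn hn1
    have hn1' : (1 : ℝ) ≤ Real.log n := hn1
    have h3 : ‖Real.log (Real.log n)‖ ≤ δ / (2 * ((C : ℝ) + 1)) * ‖Real.log n‖ := hn
    rw [Real.norm_of_nonneg (by linarith : (0 : ℝ) ≤ Real.log n)] at h3
    exact (le_abs_self _).trans h3
  have e2 : ∀ᶠ n : ℕ in atTop, ((n0 : ℝ) + 1) * Real.log n ≤ n := by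
    have h1 := Real.isLittleO_log_id_atTop.comp_tendsto (tendsto_natCast_atTop_atTop (R := ℝ))
    have h2 := h1.bound (show 0 < 1 / ((n0 : ℝ) + 1) by positivity)
    filter_upwards [h2, hlt.eventually_ge_atTop 1] with n hn hn1
    have hn1' : (1 : ℝ) ≤ Real.log n := hn1
    have h3 : ‖Real.log n‖ ≤ 1 / ((n0 : ℝ) + 1) * ‖(n : ℝ)‖ := hn
    rw [Real.norm_of_nonneg (by linarith : (0 : ℝ) ≤ Real.log n),
      Real.norm_of_nonneg (Nat.cast_nonneg n)] at h3
    have h4 : (0 : ℝ) < (n0 : ℝ) + 1 := by positivity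
    calc ((n0 : ℝ) + 1) * Real.log n ≤ ((n0 : ℝ) + 1) * (1 / ((n0 : ℝ) + 1) * n) :=
          mul_le_mul_of_nonneg_left h3 h4.le
      _ = n := by field_simp
  filter_upwards [e1, e2, hlt.eventually_ge_atTop 1, hlt.eventually_ge_atTop (2 * |Real.log α| / δ)]
    with n h1 h2 h3 h4 l hl1 hl2
  have h3' : (1 : ℝ) ≤ Real.log n := h3
  have h4' : 2 * |Real.log α| / δ ≤ Real.log n := h4
  have hL0 : (0 : ℝ) < Real.log n := by linarith
  have hn0 : (0 : ℝ) < n := by
    have : (0 : ℝ) < ((n0 : ℝ) + 1) * Real.log n := by positivity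
    linarith
  have hl3 : (n0 : ℝ) + 1 ≤ l := by
    refine le_trans ?_ hl1
    rw [le_div_iff₀ hL0]
    exact h2
  have hl4 : n0 ≤ l := by
    have : (n0 : ℝ) ≤ l := by linarith
    exact_mod_cast this
  have hl5 : (1 : ℝ) ≤ l := by
    have : (0 : ℝ) ≤ n0 := Nat.cast_nonneg _
    linarith
  have hl6 : 1 ≤ l := by exact_mod_cast hl5
  have hlr : (0 : ℝ) < l := by linarith
  have hul := sq_ge h l hl6
  have hur : (0 : ℝ) < u l := by exact_mod_cast (by omega : 0 < u l)
  have hLL : 0 ≤ Real.log (Real.log n) := Real.log_nonneg h3'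
  -- lower bound
  have b1 : Real.log n - Real.log (Real.log n) ≤ Real.log (u l) := by
    rw [← Real.log_div hn0.ne' hL0.ne']
    apply Real.log_le_log (by positivity)
    refine hl1.trans ?_
    exact_mod_cast hul
  -- upper bound
  have b2 : Real.log (u l) ≤ Real.log n + C * Real.log (Real.log n) := by
    rw [← Real.log_pow, ← Real.log_mul hn0.ne' (by positivity)]
    apply Real.log_le_log hur
    refine (hC l hl4).trans ?_
    have h5 : Real.log l ≤ Real.log n := Real.log_le_log hlr (by exact_mod_cast hl2)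
    have h6 : 0 ≤ Real.log l := Real.log_nonneg hl5
    exact mul_le_mul (by exact_mod_cast hl2) (pow_le_pow_left₀ h6 h5 C) (by positivity) hn0.le
  have hlog : Real.log (α * u l) = Real.log α + Real.log (u l) := Real.log_mul hα.ne' hur.ne'
  have b3 : |Real.log α| ≤ δ / 2 * Real.log n := by
    rw [div_le_iff₀ hδ0] at h4'
    linarith
  have b4 : ((C : ℝ) + 1) * Real.log (Real.log n) ≤ δ / 2 * Real.log n := by
    have hC0 : (0 : ℝ) < (C : ℝ) + 1 := by positivity
    calc ((C : ℝ) + 1) * Real.log (Real.log n)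
        ≤ ((C : ℝ) + 1) * (δ / (2 * ((C : ℝ) + 1)) * Real.log n) :=
          mul_le_mul_of_nonneg_left h1 hC0.le
      _ = δ / 2 * Real.log n := by field_simp
  have b5 : |Real.log n - Real.log (α * u l)| ≤ δ * Real.log n := by
    rw [hlog, abs_le]
    have c1 := neg_abs_le (Real.log α)
    have c2 := le_abs_self (Real.log α)
    have hCL : 0 ≤ (C : ℝ) * Real.log (Real.log n) := by positivity
    constructor <;> nlinarith
  have b6 : Real.log n / 2 ≤ Real.log (α * u l) := by
    have c1 := (abs_le.mp b5).2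
    have c2 : δ * Real.log n ≤ 1 / 2 * Real.log n := mul_le_mul_of_nonneg_right hδ2 hL0.le
    linarith
  have hpos : 0 < Real.log (α * u l) := by linarith
  have b7 : Real.log n / Real.log (α * u l) - 1
      = (Real.log n - Real.log (α * u l)) / Real.log (α * u l) := by
    field_simp
  rw [b7, abs_div, abs_of_pos hpos, div_lt_iff₀ hpos]
  have b8 : δ * Real.log n ≤ ε / 4 * Real.log n := mul_le_mul_of_nonneg_right hδ1 hL0.le
  have b9 : ε * (Real.log n / 2) ≤ ε * Real.log (α * u l) := mul_le_mul_of_nonneg_left b6 hε.le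
  have b10 : 0 < ε * Real.log n := by positivity
  linarith

theorem card_low (n m : ℕ) : ((range n).filter (fun j => j ≤ m)).card ≤ m + 1 := by
  have h : (range n).filter (fun j => j ≤ m) ⊆ range (m + 1) := by
    intro j hj
    rw [mem_filter] at hj
    rw [mem_range]
    omega
  have := card_le_card h
  rwa [card_range] at this

theorem card_high (n m : ℕ) : ((range n).filter (fun j => n - j ≤ m)).card ≤ m + 1 := by
  have h : ((range n).filter (fun j => n - j ≤ m)).card ≤ (range (m + 1)).card := by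
    apply card_le_card_of_injOn (fun j => n - j)
    · intro j hj
      rw [mem_coe, mem_filter] at hj
      rw [mem_coe, mem_range]
      show n - j < m + 1
      omega
    · intro i hi j hj hij
      rw [mem_coe, mem_filter, mem_range] at hi hj
      simp only at hij
      omega
  rwa [card_range] at h

theorem mt : S_MT := by
  classical
  intro k u hu σ α hα
  rw [Metric.tendsto_atTop]
  intro ε hε
  -- continuity of the product
  obtain ⟨δ, hδ0, hδ⟩ : ∃ δ : ℝ, 0 < δ ∧ ∀ r : Fin k → ℝ, (∀ i, |r i - 1| < δ) →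
      |∏ i, r i - 1| < ε / 8 := by
    have hc : Continuous fun r : Fin k → ℝ => ∏ i, r i :=
      continuous_finsetProd _ fun i _ => continuous_apply i
    have h1 := Metric.continuous_iff.mp hc (fun _ => 1) (ε / 8) (by positivity)
    obtain ⟨δ, hδ, h⟩ := h1
    refine ⟨δ, hδ, fun r hr => ?_⟩
    have h2 := h r ((dist_pi_lt_iff hδ).mpr fun i => by
      rw [Real.dist_eq]
      exact hr i)
    rw [Real.dist_eq, prod_const_one] at h2
    exact h2
  have hA : ∀ᶠ n : ℕ in atTop, ∀ i, ∀ l : ℕ, Nat.sqrt n < l →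
      Real.log n / 3 ≤ Real.log (α i * u i l) :=
    eventually_all.mpr fun i => partA (hu i) (hα i)
  have hB : ∀ᶠ n : ℕ in atTop, ∀ i, ∀ l : ℕ, (n : ℝ) / Real.log n ≤ l → l ≤ n →
      |Real.log n / Real.log (α i * u i l) - 1| < δ :=
    eventually_all.mpr fun i => partB (hu i) (hα i) hδ0
  have hlt := Real.tendsto_log_atTop.comp (tendsto_natCast_atTop_atTop (R := ℝ))
  have h3k : (0 : ℝ) < 3 ^ k := by positivity
  have hall : ∀ᶠ n : ℕ in atTop, |(∑ j ∈ T n, ∏ i, 1 / Real.log (α i * u i (arg (σ i) n j))) *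
      (Real.log n) ^ k / n - 1| < ε := by
    obtain ⟨m, hm⟩ := exists_nat_gt (32 / ε)
    have hm0 : (0 : ℝ) < m := lt_trans (by positivity) hm
    have hm1 : 1 ≤ m := by exact_mod_cast hm0
    filter_upwards [hA, hB, hlt.eventually_ge_atTop 1,
      hlt.eventually_ge_atTop (32 * 3 ^ k / ε), eventually_ge_atTop (m * m),
      (tendsto_natCast_atTop_atTop (R := ℝ)).eventually_ge_atTop (32 * 3 ^ k / ε)]
      with n hA hB hL1 hL2 hnm hn2
    have hL1' : (1 : ℝ) ≤ Real.log n := hL1
    have hL2' : 32 * 3 ^ k / ε ≤ Real.log n := hL2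
    have hL0 : (0 : ℝ) < Real.log n := by linarith
    have hn1 : 1 ≤ n := le_trans (Nat.mul_pos hm1 hm1) hnm
    have hn0 : (0 : ℝ) < n := by exact_mod_cast hn1
    -- the normalised product
    obtain ⟨g, hg⟩ : ∃ g : ℕ → ℝ, g = fun j => ∏ i, Real.log n /
        Real.log (α i * u i (arg (σ i) n j)) := ⟨_, rfl⟩
    have hsum : (∑ j ∈ T n, ∏ i, 1 / Real.log (α i * u i (arg (σ i) n j))) * (Real.log n) ^ k =
        ∑ j ∈ T n, g j := by
      rw [sum_mul]
      refine sum_congr rfl fun j _ => ?_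
      rw [hg]
      have e1 : (Real.log n) ^ k = ∏ _i : Fin k, Real.log n := by
        rw [prod_const, card_univ, Fintype.card_fin]
      rw [e1, ← prod_mul_distrib]
      exact prod_congr rfl fun i _ => by rw [one_div, mul_comm, ← div_eq_mul_inv]
    have harg : ∀ j ∈ T n, ∀ i, Nat.sqrt n < arg (σ i) n j ∧ arg (σ i) n j ≤ n := by
      intro j hj i
      unfold T at hj
      rw [mem_filter, mem_range] at hj
      unfold arg
      split_ifs
      · exact ⟨hj.2.2, by omega⟩
      · exact ⟨hj.2.1, by omega⟩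
    have hg1 : ∀ j ∈ T n, |g j - 1| ≤ 3 ^ k := by
      intro j hj
      have f0 : ∀ i, 0 ≤ Real.log n / Real.log (α i * u i (arg (σ i) n j)) := fun i => by
        have := hA i _ (harg j hj i).1
        exact div_nonneg hL0.le (by linarith)
      have f1 : ∀ i, Real.log n / Real.log (α i * u i (arg (σ i) n j)) ≤ 3 := fun i => by
        have := hA i _ (harg j hj i).1
        rw [div_le_iff₀ (by linarith)]
        linarith
      have g0 : 0 ≤ g j := by rw [hg]; exact prod_nonneg fun i _ => f0 i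
      have g1 : g j ≤ 3 ^ k := by
        have h5 : g j ≤ ∏ _i : Fin k, (3 : ℝ) := by
          rw [hg]
          exact prod_le_prod (fun i _ => f0 i) fun i _ => f1 i
        rwa [prod_const, card_univ, Fintype.card_fin] at h5
      have g2 : (1 : ℝ) ≤ 3 ^ k := one_le_pow₀ (by norm_num)
      rw [abs_le]
      constructor <;> linarith
    obtain ⟨x, hx⟩ : ∃ x : ℝ, x = (n : ℝ) / Real.log n := ⟨_, rfl⟩
    have hx0 : 0 ≤ x := by rw [hx]; positivity
    have hg2 : ∀ j ∈ T n, ¬ (j ≤ ⌊x⌋₊) → ¬ (n - j ≤ ⌊x⌋₊) → |g j - 1| ≤ ε / 8 := by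
      intro j hj h1 h2
      have h1' : x < j := by
        by_contra hcon
        exact h1 (Nat.le_floor (not_lt.mp hcon))
      have h2' : x < ((n - j : ℕ) : ℝ) := by
        by_contra hcon
        exact h2 (Nat.le_floor (not_lt.mp hcon))
      rw [hg]
      refine (hδ _ fun i => hB i _ ?_ (harg j hj i).2).le
      rw [← hx]
      unfold arg
      split_ifs
      · exact h2'.le
      · exact h1'.le
    -- the sum
    obtain ⟨E, hE⟩ : ∃ E : Finset ℕ, E = (range n).filter (fun j => j ≤ ⌊x⌋₊) ∪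
        (range n).filter (fun j => n - j ≤ ⌊x⌋₊) := ⟨_, rfl⟩
    have hEc : (E.card : ℝ) ≤ 2 * (x + 1) := by
      have h1 : E.card ≤ (⌊x⌋₊ + 1) + (⌊x⌋₊ + 1) := by
        rw [hE]
        exact (card_union_le _ _).trans (add_le_add (card_low _ _) (card_high _ _))
      have h2 : (E.card : ℝ) ≤ ((⌊x⌋₊ : ℝ) + 1) + ((⌊x⌋₊ : ℝ) + 1) := by exact_mod_cast h1
      have h3 := Nat.floor_le hx0
      linarith
    have hTn : T n ⊆ range n := filter_subset _ _
    have hterm : ∀ j ∈ T n, |g j - 1| ≤ ε / 8 + if j ∈ E then (3 : ℝ) ^ k else 0 := by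
      intro j hj
      by_cases hjE : j ∈ E
      · rw [if_pos hjE]
        have := hg1 j hj
        linarith
      · rw [if_neg hjE, add_zero]
        rw [hE, mem_union, mem_filter, mem_filter, not_or] at hjE
        exact hg2 j hj (fun h => hjE.1 ⟨hTn hj, h⟩) (fun h => hjE.2 ⟨hTn hj, h⟩)
    have hS1 : |∑ j ∈ T n, g j - (T n).card| ≤ ε / 8 * n + 3 ^ k * (2 * (x + 1)) := by
      have e1 : ∑ j ∈ T n, g j - (T n).card = ∑ j ∈ T n, (g j - 1) := by
        rw [sum_sub_distrib, sum_const, nsmul_eq_mul, mul_one]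
      rw [e1]
      refine (abs_sum_le_sum_abs _ _).trans ((sum_le_sum hterm).trans ?_)
      rw [sum_add_distrib, sum_const, nsmul_eq_mul, ← sum_filter, sum_const, nsmul_eq_mul]
      have h1 : ((T n).card : ℝ) ≤ n := by
        have := card_le_card hTn
        rw [card_range] at this
        exact_mod_cast this
      have h2 : (((T n).filter (fun j => j ∈ E)).card : ℝ) ≤ 2 * (x + 1) := by
        refine le_trans ?_ hEc
        exact_mod_cast card_le_card (fun j hj => (mem_filter.mp hj).2)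
      have h3 : ((T n).card : ℝ) * (ε / 8) ≤ n * (ε / 8) :=
        mul_le_mul_of_nonneg_right h1 (by positivity)
      have h4 : (((T n).filter (fun j => j ∈ E)).card : ℝ) * 3 ^ k ≤ 2 * (x + 1) * 3 ^ k :=
        mul_le_mul_of_nonneg_right h2 h3k.le
      linarith
    -- the size of `T`
    have hT : |((T n).card : ℝ) - n| ≤ 2 * ((Nat.sqrt n : ℝ) + 1) := by
      have h1 : (T n).card ≤ n := by
        have := card_le_card hTn
        rwa [card_range] at this
      have h2 : n ≤ (T n).card + ((Nat.sqrt n + 1) + (Nat.sqrt n + 1)) := by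
        have h3 : range n ⊆ T n ∪ ((range n).filter (fun j => j ≤ Nat.sqrt n) ∪
            (range n).filter (fun j => n - j ≤ Nat.sqrt n)) := by
          intro j hj
          unfold T
          rw [mem_union, mem_union, mem_filter, mem_filter, mem_filter]
          by_cases h4 : j ≤ Nat.sqrt n
          · exact Or.inr (Or.inl ⟨hj, h4⟩)
          · by_cases h5 : n - j ≤ Nat.sqrt n
            · exact Or.inr (Or.inr ⟨hj, h5⟩)
            · exact Or.inl ⟨hj, by omega, by omega⟩
        have h4 := card_le_card h3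
        rw [card_range] at h4
        exact h4.trans ((card_union_le _ _).trans (add_le_add le_rfl
          ((card_union_le _ _).trans (add_le_add (card_low _ _) (card_high _ _)))))
      have h1' : ((T n).card : ℝ) ≤ n := by exact_mod_cast h1
      have h2' : (n : ℝ) ≤ (T n).card + (((Nat.sqrt n : ℝ) + 1) + ((Nat.sqrt n : ℝ) + 1)) := by
        exact_mod_cast h2
      rw [abs_le]
      constructor <;> linarith
    -- numerical estimates
    have hs1 : m ≤ Nat.sqrt n := Nat.le_sqrt.mpr hnm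
    have hs2 : ((Nat.sqrt n : ℝ)) * (Nat.sqrt n : ℝ) ≤ n := by exact_mod_cast Nat.sqrt_le n
    have hs3 : (m : ℝ) ≤ Nat.sqrt n := by exact_mod_cast hs1
    have hs4 : (1 : ℝ) ≤ Nat.sqrt n := by
      have : 1 ≤ Nat.sqrt n := le_trans hm1 hs1
      exact_mod_cast this
    have hs5 : 32 ≤ ε * Nat.sqrt n := by
      rw [div_lt_iff₀ hε] at hm
      nlinarith
    have q1 : 2 * ((Nat.sqrt n : ℝ) + 1) ≤ ε / 8 * n := by
      have : 32 * (Nat.sqrt n : ℝ) ≤ ε * Nat.sqrt n * Nat.sqrt n :=
        mul_le_mul_of_nonneg_right hs5 (by linarith)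
      nlinarith
    have q2 : 3 ^ k * (2 * (x + 1)) ≤ ε / 8 * n := by
      have h1 : 32 * 3 ^ k ≤ Real.log n * ε := (div_le_iff₀ hε).mp hL2'
      have h2 : 32 * 3 ^ k ≤ (n : ℝ) * ε := (div_le_iff₀ hε).mp hn2
      have h3 : x * Real.log n = n := by rw [hx]; field_simp
      have h4 : x * (32 * 3 ^ k) ≤ x * (Real.log n * ε) := mul_le_mul_of_nonneg_left h1 hx0
      have h5 : x * (Real.log n * ε) = n * ε := by rw [← mul_assoc, h3]
      rw [h5] at h4
      linarith
    have hfin : |∑ j ∈ T n, g j - n| ≤ 3 * (ε / 8 * n) := by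
      have e1 : ∑ j ∈ T n, g j - n = (∑ j ∈ T n, g j - (T n).card) + ((T n).card - n) := by ring
      rw [e1]
      refine (abs_add_le _ _).trans ?_
      linarith
    rw [hsum]
    have e2 : (∑ j ∈ T n, g j) / n - 1 = (∑ j ∈ T n, g j - n) / n := by
      field_simp
    rw [e2, abs_div, abs_of_pos hn0, div_lt_iff₀ hn0]
    have : 0 < ε * n := by positivity
    linarith
  obtain ⟨N, hN⟩ := eventually_atTop.mp hall
  exact ⟨N, fun n hn => by rw [Real.dist_eq]; exact hN n hn⟩

end Pool.Agent.N531.HS
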